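import Mathlib

set_option autoImplicit false

/-!
# Free `ℚ`-groups

Definition by the universal property, existence, and non-commutativity in rank at least two.
-/

namespace Pool.Agent.Q104.QG

universe u v

/-- A `ℚ`-group: for every `g` and every integer `n ≥ 1` there is exactly one `x` with
`x ^ n = g`. -/
def IsQGroup (G : Type*) [Group G] : Prop :=
  ∀ n : ℕ, 1 ≤ n → ∀ g : G, ∃! x : G, x ^ n = g

/-- `F` is a free `ℚ`-group on `X` with the map `ι : X → F`: `F` is a `ℚ`-group, and every map of
`X` to a `ℚ`-group `H` extends to exactly one homomorphism `F → H`. -/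
def IsFreeQGroup {X : Type u} {F : Type v} [Group F] (ι : X → F) : Prop :=
  IsQGroup F ∧ ∀ (H : Type v) [Group H], IsQGroup H → ∀ f : X → H,
    ∃! φ : F →* H, ∀ x, φ (ι x) = f x

/-! ### Existence -/

/-- Terms. -/
inductive Term (X : Type u) : Type u
  | of : X → Term X
  | one : Term X
  | mul : Term X → Term X → Term X
  | inv : Term X → Term X
  | root : ℕ → Term X → Term X

namespace Term

variable {X : Type u}

/-- Powers of terms. -/
def pw (t : Term X) : ℕ → Term X
  | 0 => one
  | n + 1 => mul (pw t n) t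

/-- The relation generated by the axioms of `ℚ`-groups. -/
inductive Rel : Term X → Term X → Prop
  | refl (a) : Rel a a
  | symm {a b} : Rel a b → Rel b a
  | trans {a b c} : Rel a b → Rel b c → Rel a c
  | mul {a b c d} : Rel a b → Rel c d → Rel (mul a c) (mul b d)
  | inv {a b} : Rel a b → Rel (inv a) (inv b)
  | root {a b} (n) : Rel a b → Rel (root n a) (root n b)
  | assoc (a b c) : Rel (.mul (.mul a b) c) (.mul a (.mul b c))
  | one_mul (a) : Rel (.mul one a) a
  | mul_one (a) : Rel (.mul a one) a
  | inv_mul (a) : Rel (.mul (.inv a) a) one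
  | root_pw (n a) : Rel (pw (.root n a) (n + 1)) a
  | pw_root (n a) : Rel (.root n (pw a (n + 1))) a

/-- The setoid of the relation. -/
def setoid (X : Type u) : Setoid (Term X) :=
  ⟨Rel, Rel.refl, Rel.symm, Rel.trans⟩

end Term

/-- The free `ℚ`-group. -/
def FQ (X : Type u) : Type u := Quotient (Term.setoid X)

namespace FQ

variable {X : Type u}

/-- The class of a term. -/
def mk (t : Term X) : FQ X := Quotient.mk (Term.setoid X) t

theorem sound {a b : Term X} (h : Term.Rel a b) : mk a = mk b := Quotient.sound (s := Term.setoid X) h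

instance : Mul (FQ X) :=
  ⟨Quotient.map₂ (sa := Term.setoid X) (sb := Term.setoid X) (sc := Term.setoid X) Term.mul
    (fun _ _ h _ _ k => Term.Rel.mul h k)⟩

instance : Inv (FQ X) :=
  ⟨Quotient.map (sa := Term.setoid X) (sb := Term.setoid X) Term.inv (fun _ _ h => Term.Rel.inv h)⟩

instance : One (FQ X) := ⟨mk Term.one⟩

theorem mk_mul (a b : Term X) : mk (Term.mul a b) = mk a * mk b := rfl
theorem mk_inv (a : Term X) : mk (Term.inv a) = (mk a)⁻¹ := rfl
theorem mk_one : mk (Term.one : Term X) = 1 := rfl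

theorem ind {p : FQ X → Prop} (h : ∀ t, p (mk t)) (x : FQ X) : p x :=
  Quotient.ind (s := Term.setoid X) h x

instance : Group (FQ X) := Group.ofLeftAxioms
  (fun a b c => by
    induction a using ind with | _ a
    induction b using ind with | _ b
    induction c using ind with | _ c
    exact sound (Term.Rel.assoc a b c))
  (fun a => by
    induction a using ind with | _ a
    exact sound (Term.Rel.one_mul a))
  (fun a => by
    induction a using ind with | _ a
    exact sound (Term.Rel.inv_mul a))

theorem mk_pw (a : Term X) (n : ℕ) : mk (Term.pw a n) = mk a ^ n := by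
  induction n with
  | zero => rw [pow_zero]; rfl
  | succ n ih => rw [pow_succ, ← ih]; rfl

theorem isQGroup : IsQGroup (FQ X) := by
  intro n hn g
  obtain ⟨m, rfl⟩ : ∃ m, n = m + 1 := ⟨n - 1, by omega⟩
  induction g using ind with | _ g
  refine ⟨mk (Term.root m g), ?_, ?_⟩
  · show mk (Term.root m g) ^ (m + 1) = mk g
    rw [← mk_pw]
    exact sound (Term.Rel.root_pw m g)
  · intro y hy
    induction y using ind with | _ y
    have hy' : mk (Term.pw y (m + 1)) = mk g := by rw [mk_pw]; exact hy
    have h1 : Term.Rel (Term.pw y (m + 1)) g := Quotient.exact (s := Term.setoid X) hy'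
    have h2 : Term.Rel (Term.root m (Term.pw y (m + 1))) (Term.root m g) := Term.Rel.root m h1
    exact (sound (Term.Rel.pw_root m y)).symm.trans (sound h2)

/-- Evaluation of terms in a `ℚ`-group. -/
noncomputable def eval {H : Type v} [Group H] (hH : IsQGroup H) (f : X → H) : Term X → H
  | .of x => f x
  | .one => 1
  | .mul a b => eval hH f a * eval hH f b
  | .inv a => (eval hH f a)⁻¹
  | .root n a => (hH (n + 1) (by omega) (eval hH f a)).choose

theorem eval_root {H : Type v} [Group H] (hH : IsQGroup H) (f : X → H) (n : ℕ) (a : Term X) :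
    eval hH f (.root n a) ^ (n + 1) = eval hH f a :=
  (hH (n + 1) (by omega) (eval hH f a)).choose_spec.1

theorem eval_pw {H : Type v} [Group H] (hH : IsQGroup H) (f : X → H) (a : Term X) (n : ℕ) :
    eval hH f (.pw a n) = eval hH f a ^ n := by
  induction n with
  | zero => rw [pow_zero]; rfl
  | succ n ih => rw [pow_succ, ← ih]; rfl

theorem _root_.Pool.Agent.Q104.QG.IsQGroup.pow_inj {H : Type v} [Group H] (hH : IsQGroup H)
    {n : ℕ} (hn : 1 ≤ n) {x y : H} (h : x ^ n = y ^ n) : x = y :=
  (hH n hn (y ^ n)).unique h rfl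

theorem eval_rel {H : Type v} [Group H] (hH : IsQGroup H) (f : X → H) {a b : Term X}
    (h : Term.Rel a b) : eval hH f a = eval hH f b := by
  induction h with
  | refl a => rfl
  | symm _ ih => exact ih.symm
  | trans _ _ ih1 ih2 => exact ih1.trans ih2
  | mul _ _ ih1 ih2 => simp only [eval, ih1, ih2]
  | inv _ ih => simp only [eval, ih]
  | root n _ ih =>
    apply hH.pow_inj (Nat.succ_pos n)
    rw [Nat.succ_eq_add_one, eval_root, eval_root, ih]
  | assoc a b c => simp only [eval, mul_assoc]
  | one_mul a => simp only [eval, one_mul]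
  | mul_one a => simp only [eval, mul_one]
  | inv_mul a => simp only [eval, inv_mul_cancel]
  | root_pw n a => rw [eval_pw, eval_root]
  | pw_root n a =>
    apply hH.pow_inj (Nat.succ_pos n)
    rw [Nat.succ_eq_add_one, eval_root, eval_pw]

/-- The extension of a map to the free `ℚ`-group. -/
noncomputable def lift {H : Type v} [Group H] (hH : IsQGroup H) (f : X → H) : FQ X →* H where
  toFun := Quotient.lift (s := Term.setoid X) (eval hH f) (fun _ _ h => eval_rel hH f h)
  map_one' := rfl
  map_mul' a b := by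
    induction a using ind with | _ a
    induction b using ind with | _ b
    rfl

theorem lift_mk {H : Type v} [Group H] (hH : IsQGroup H) (f : X → H) (t : Term X) :
    lift hH f (mk t) = eval hH f t := rfl

/-- The free `ℚ`-group on `X` exists. -/
theorem isFreeQGroup : IsFreeQGroup (fun x : X => mk (Term.of x)) := by
  refine ⟨isQGroup, fun H _ hH f => ⟨lift hH f, fun x => rfl, ?_⟩⟩
  intro φ hφ
  ext g
  induction g using ind with | _ g
  rw [lift_mk]
  induction g with
  | of x => exact hφ x
  | one => exact map_one φ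
  | mul a b iha ihb => rw [mk_mul, map_mul, iha, ihb]; rfl
  | inv a iha => rw [mk_inv, map_inv, iha]; rfl
  | root n a iha =>
    apply hH.pow_inj (Nat.succ_pos n)
    rw [Nat.succ_eq_add_one, eval_root, ← map_pow, ← mk_pw, sound (Term.Rel.root_pw n a), iha]

end FQ

/-! ### Non-commutativity -/

/-- The Heisenberg group over the rational numbers. -/
@[ext] structure Heis : Type where
  /-- first coordinate -/
  a : ℚ
  /-- second coordinate -/
  b : ℚ
  /-- central coordinate -/
  c : ℚ

namespace Heis

instance : Mul Heis := ⟨fun x y => ⟨x.a + y.a, x.b + y.b, x.c + y.c + x.a * y.b⟩⟩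
instance : One Heis := ⟨⟨0, 0, 0⟩⟩
instance : Inv Heis := ⟨fun x => ⟨-x.a, -x.b, -x.c + x.a * x.b⟩⟩

@[simp] theorem mul_a (x y : Heis) : (x * y).a = x.a + y.a := rfl
@[simp] theorem mul_b (x y : Heis) : (x * y).b = x.b + y.b := rfl
@[simp] theorem mul_c (x y : Heis) : (x * y).c = x.c + y.c + x.a * y.b := rfl
@[simp] theorem one_a : (1 : Heis).a = 0 := rfl
@[simp] theorem one_b : (1 : Heis).b = 0 := rfl
@[simp] theorem one_c : (1 : Heis).c = 0 := rfl
@[simp] theorem inv_a (x : Heis) : (x⁻¹).a = -x.a := rfl
@[simp] theorem inv_b (x : Heis) : (x⁻¹).b = -x.b := rfl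
@[simp] theorem inv_c (x : Heis) : (x⁻¹).c = -x.c + x.a * x.b := rfl

instance : Group Heis := Group.ofLeftAxioms
  (fun x y z => by ext <;> simp <;> ring)
  (fun x => by ext <;> simp)
  (fun x => by ext <;> simp)

theorem pow_formula (x : Heis) (n : ℕ) :
    (x ^ n).a = n * x.a ∧ (x ^ n).b = n * x.b ∧
      (x ^ n).c = n * x.c + n * (n - 1) / 2 * (x.a * x.b) := by
  induction n with
  | zero => simp
  | succ n ih =>
    obtain ⟨h1, h2, h3⟩ := ih
    rw [pow_succ]
    refine ⟨?_, ?_, ?_⟩
    · simp only [mul_a, h1]; push_cast; ring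
    · simp only [mul_b, h2]; push_cast; ring
    · simp only [mul_c, h3, h1]; push_cast; ring

theorem isQGroup : IsQGroup Heis := by
  intro n hn g
  have hn' : (n : ℚ) ≠ 0 := by positivity
  refine ⟨⟨g.a / n, g.b / n, (g.c - n * (n - 1) / 2 * (g.a / n * (g.b / n))) / n⟩, ?_, ?_⟩
  · obtain ⟨h1, h2, h3⟩ := pow_formula
      ⟨g.a / n, g.b / n, (g.c - n * (n - 1) / 2 * (g.a / n * (g.b / n))) / n⟩ n
    ext
    · rw [h1]; field_simp
    · rw [h2]; field_simp
    · rw [h3]; field_simp; ring
  · rintro y rfl
    obtain ⟨h1, h2, h3⟩ := pow_formula y n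
    ext
    · simp only [h1]; field_simp
    · simp only [h2]; field_simp
    · simp only [h1, h2, h3]; field_simp; ring

end Heis

theorem isQGroup_of_equiv {G : Type u} {H : Type v} [Group G] [Group H] (e : G ≃* H)
    (hG : IsQGroup G) : IsQGroup H := by
  intro n hn h
  obtain ⟨x, hx, hu⟩ := hG n hn (e.symm h)
  refine ⟨e x, ?_, ?_⟩
  · show (e x) ^ n = h
    rw [← map_pow, hx, e.apply_symm_apply]
  · intro y hy
    have := hu (e.symm y) (by show (e.symm y) ^ n = _; rw [← map_pow, hy])
    rw [← this, e.apply_symm_apply]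

/-- A free `ℚ`-group of rank at least two is not abelian. -/
theorem IsFreeQGroup.not_comm {X : Type u} {F : Type v} [Group F] {ι : X → F}
    (h : IsFreeQGroup ι) {x y : X} (hxy : x ≠ y) : ι x * ι y ≠ ι y * ι x := by
  classical
  intro hcomm
  obtain ⟨φ, hφ, -⟩ := h.2 (ULift.{v} Heis) (isQGroup_of_equiv MulEquiv.ulift.symm Heis.isQGroup)
    (fun z => if z = x then ⟨⟨1, 0, 0⟩⟩ else if z = y then ⟨⟨0, 1, 0⟩⟩ else 1)
  have h1 : φ (ι x) = ⟨⟨1, 0, 0⟩⟩ := by rw [hφ]; simp
  have h2 : φ (ι y) = ⟨⟨0, 1, 0⟩⟩ := by rw [hφ]; simp [hxy.symm]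
  have h3 := congrArg φ hcomm
  rw [map_mul, map_mul, h1, h2] at h3
  have h4 := congrArg (fun z : ULift.{v} Heis => z.down.c) h3
  simp at h4

end Pool.Agent.Q104.QG
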